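import Pool.Agent.H20.SLF.M1d
import Pool.Agent.H68.SLF.Count

/-! M1: words of logarithmic length for the radical elements `uu x y`, which can be added in
linear space. -/

set_option autoImplicit false

namespace Pool.Agent.H20.SLF

open Pool.Agent.H68.SLF

/-! ### short words -/

/-- traces of the powers of `D` -/
def tau : ℕ → ℤ
  | 0 => 2
  | 1 => 3
  | (n + 2) => 3 * tau (n + 1) - tau n

lemma tau_bounds (k : ℕ) : 0 < tau k ∧ tau k ≤ tau (k + 1) ∧ 2 ^ (k + 1) ≤ tau (k + 1) ∧
    tau (k + 1) ≤ 3 * tau k := by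
  induction k with
  | zero => simp [tau]
  | succ k ih =>
    obtain ⟨h1, h2, h3, h4⟩ := ih
    have e : tau (k + 1 + 1) = 3 * tau (k + 1) - tau k := rfl
    rw [e]
    refine ⟨by linarith, by linarith, ?_, by linarith⟩
    rw [pow_succ]
    linarith

lemma Da_iter (k : ℕ) (v : ℤ × ℤ) :
    (Da true)^[k] v + (Da false)^[k] v = (tau k * v.1, tau k * v.2) := by
  have key : ∀ k, ((Da true)^[k] v + (Da false)^[k] v = (tau k * v.1, tau k * v.2)) ∧
      ((Da true)^[k + 1] v + (Da false)^[k + 1] v = (tau (k + 1) * v.1, tau (k + 1) * v.2)) := by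
    intro k
    induction k with
    | zero =>
      refine ⟨?_, ?_⟩
      · ext <;> simp [tau] <;> ring
      · ext <;> simp [tau, Da] <;> ring
    | succ k ih =>
      obtain ⟨h1, h2⟩ := ih
      refine ⟨h2, ?_⟩
      have q : ∀ (δ : Bool) (w : ℤ × ℤ), Da δ (Da δ w) = (3 * (Da δ w).1 - w.1,
          3 * (Da δ w).2 - w.2) := by
        intro δ w
        cases δ <;> ext <;> simp [Da] <;> ring
      have e1 : ∀ δ : Bool, (Da δ)^[k + 1 + 1] v = (3 * ((Da δ)^[k + 1] v).1 - ((Da δ)^[k] v).1,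
          3 * ((Da δ)^[k + 1] v).2 - ((Da δ)^[k] v).2) := by
        intro δ
        rw [Function.iterate_succ_apply', Function.iterate_succ_apply', q]
      rw [e1, e1]
      have a1 := congrArg Prod.fst h1
      have a2 := congrArg Prod.snd h1
      have b1 := congrArg Prod.fst h2
      have b2 := congrArg Prod.snd h2
      simp only [Prod.fst_add, Prod.snd_add] at a1 a2 b1 b2
      have e : tau (k + 1 + 1) = 3 * tau (k + 1) - tau k := rfl
      ext
      · simp only [Prod.fst_add, e]; linear_combination 3 * b1 - a1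
      · simp only [Prod.snd_add, e]; linear_combination 3 * b2 - a2
  exact (key k).1

lemma V_append (δ : Bool) (cs : List (List U)) (c : List U) :
    V δ (cs ++ [c]) = V δ cs + (Da δ)^[cs.length + 1] (val c) := by
  induction cs with
  | nil => simp [V]
  | cons b cs ih =>
    simp only [List.cons_append, V, ih, List.length_cons]
    rw [Function.iterate_succ_apply' (Da δ) (cs.length + 1), ← Da_add, add_assoc]

lemma digit {x t : ℤ} (ht : 0 < t) (h : x.natAbs < 3 * t.natAbs) :
    ∃ c : ℤ, c.natAbs ≤ 2 ∧ (x - t * c).natAbs < t.natAbs := by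
  rcases le_or_gt (2 * t) x with h1 | h1
  · exact ⟨2, by simp, by omega⟩
  rcases le_or_gt t x with h2 | h2
  · exact ⟨1, by simp, by omega⟩
  rcases lt_or_ge (-t) x with h3 | h3
  · exact ⟨0, by simp, by omega⟩
  rcases lt_or_ge (-(2 * t)) x with h4 | h4
  · exact ⟨-1, by simp, by omega⟩
  · exact ⟨-2, by simp, by omega⟩

lemma digits (k : ℕ) : ∀ x y : ℤ, x.natAbs < (tau (k + 1)).natAbs →
    y.natAbs < (tau (k + 1)).natAbs →
    ∃ (cs : List (List U)) (c : List U), cs.length = k ∧ Su cs ≤ 4 * k ∧ c.length ≤ 4 ∧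
      V true cs + (V false cs + val c) = (x, y) := by
  induction k with
  | zero =>
    intro x y hx hy
    simp [tau] at hx hy
    refine ⟨[], vw (x, y), rfl, by simp, ?_, by simp [V, val_vw]⟩
    rw [length_vw]
    simp only
    omega
  | succ k ih =>
    intro x y hx hy
    obtain ⟨h1, h2, h3, h4⟩ := tau_bounds (k + 1)
    obtain ⟨c1, hc1, hd1⟩ := digit (x := x) h1 (by omega)
    obtain ⟨c2, hc2, hd2⟩ := digit (x := y) h1 (by omega)
    obtain ⟨cs, c, hl, hs, hc, hv⟩ := ih _ _ hd1 hd2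
    refine ⟨cs ++ [vw (c1, c2)], c, by simp [hl], ?_, hc, ?_⟩
    · have e : Su (cs ++ [vw (c1, c2)]) = Su cs + (vw (c1, c2)).length := by simp [Su]
      rw [e, length_vw]
      simp only
      omega
    · rw [V_append, V_append, hl, val_vw]
      have e := Da_iter (k + 1) (c1, c2)
      have e' : V true cs + (Da true)^[k + 1] (c1, c2) +
          (V false cs + (Da false)^[k + 1] (c1, c2) + val c) =
          (V true cs + (V false cs + val c)) +
          ((Da true)^[k + 1] (c1, c2) + (Da false)^[k + 1] (c1, c2)) := by abel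
      rw [e', hv, e]
      ext <;> simp

lemma IsSol_uw (c : List U) : ∀ x ∈ uw c, IsSol x := by
  intro x hx
  simp only [List.mem_map] at hx
  obtain ⟨u, _, rfl⟩ := hx
  exact Or.inl ⟨u, rfl⟩

lemma IsSol_Y (δ : Bool) (cs : List (List U)) : ∀ x ∈ Y δ cs, IsSol x := by
  induction cs with
  | nil => simp [Y]
  | cons c cs ih =>
    intro x hx
    simp only [Y, List.mem_cons, List.mem_append, List.not_mem_nil, or_false] at hx
    rcases hx with rfl | hx | hx | rfl
    · exact Or.inr ⟨δ, rfl⟩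
    · exact IsSol_uw c x hx
    · exact ih x hx
    · exact Or.inr ⟨!δ, rfl⟩

lemma IsSol_linv {x : Lt} (h : IsSol x) : IsSol (linv x) := by
  rcases h with ⟨⟨b, s⟩, rfl⟩ | ⟨δ, rfl⟩
  · refine Or.inl ⟨(b, !s), ?_⟩
    apply Subtype.ext
    rw [linv_val, ul_val, ul_val, uu'_inv]
    cases b <;> cases s <;> simp [uv]
  · refine Or.inr ⟨!δ, ?_⟩
    apply Subtype.ext
    rw [linv_val, dl_val, dl_val, Dm_inv]

lemma IsSol_wi {w : List Lt} (h : ∀ x ∈ w, IsSol x) : ∀ x ∈ wi w, IsSol x := by
  intro x hx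
  simp only [wi, List.mem_reverse, List.mem_map] at hx
  obtain ⟨y, hy, rfl⟩ := hx
  exact IsSol_linv (h y hy)

lemma short_word (x y : ℤ) : ∃ w : List Lt, (∀ z ∈ w, IsSol z) ∧ ev w = uu x y ∧
    (x = 0 → y = 0 → w = []) ∧
    ∀ n : ℕ, x.natAbs < 2 ^ n → y.natAbs < 2 ^ n → w.length ≤ 12 * (n + 1) := by
  by_cases h0 : x = 0 ∧ y = 0
  · obtain ⟨rfl, rfl⟩ := h0
    exact ⟨[], by simp, by simp [uu_zero], fun _ _ => rfl, by simp⟩
  have hex : ∃ n : ℕ, x.natAbs < 2 ^ n ∧ y.natAbs < 2 ^ n := by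
    refine ⟨x.natAbs + y.natAbs, ?_⟩
    have := Nat.lt_two_pow_self (n := x.natAbs + y.natAbs)
    omega
  classical
  set k := Nat.find hex with hk
  have hk1 : x.natAbs < 2 ^ k ∧ y.natAbs < 2 ^ k := Nat.find_spec hex
  have ht := (tau_bounds k).2.2.1
  have ht' : 2 ^ k < (tau (k + 1)).natAbs := by
    have h1 : (2 : ℤ) ^ (k + 1) = 2 * 2 ^ k := by ring
    have h2 : (0 : ℤ) < 2 ^ k := by positivity
    have h3 : ((2 ^ k : ℕ) : ℤ) = 2 ^ k := by push_cast; rfl
    have h4 : ((2 ^ k : ℕ) : ℤ) < tau (k + 1) := by rw [h3]; linarith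
    omega
  obtain ⟨cs, c, hl, hs, hc, hv⟩ := digits k x y (by omega) (by omega)
  refine ⟨Y true cs ++ (Y false cs ++ uw c), ?_, ?_, ?_, ?_⟩
  · intro z hz
    simp only [List.mem_append] at hz
    rcases hz with hz | hz | hz
    · exact IsSol_Y _ _ z hz
    · exact IsSol_Y _ _ z hz
    · exact IsSol_uw _ z hz
  · rw [ev_append, ev_append, ev_Y, ev_Y, ev_uw, uu'_add, uu'_add, hv]
    rfl
  · intro hx hy; exact absurd ⟨hx, hy⟩ h0
  · intro n hx hy
    have hkn : k ≤ n := Nat.find_min' hex ⟨hx, hy⟩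
    simp only [List.length_append, length_Y, List.length_map]
    omega

/-- the compressed words -/
noncomputable def W (x y : ℤ) : List Lt := (short_word x y).choose

lemma W_sol (x y : ℤ) : ∀ z ∈ W x y, IsSol z := (short_word x y).choose_spec.1
lemma ev_W (x y : ℤ) : ev (W x y) = uu x y := (short_word x y).choose_spec.2.1
lemma W_zero : W 0 0 = [] := (short_word 0 0).choose_spec.2.2.1 rfl rfl
lemma len_W (x y : ℤ) (n : ℕ) (hx : x.natAbs < 2 ^ n) (hy : y.natAbs < 2 ^ n) :
    (W x y).length ≤ 12 * (n + 1) := (short_word x y).choose_spec.2.2.2 n hx hy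

lemma W_add {L : ℕ} (hL : 4 ≤ L) (x y x' y' : ℤ) (n : ℕ) (hx : x.natAbs < 2 ^ n)
    (hy : y.natAbs < 2 ^ n) (hx' : x'.natAbs < 2 ^ n) (hy' : y'.natAbs < 2 ^ n) :
    H L (2000 * (n + 1)) (W x y ++ W x' y') (W (x + x') (y + y')) := by
  have l1 := len_W x y n hx hy
  have l2 := len_W x' y' n hx' hy'
  have l3 := len_W (x + x') (y + y') (n + 1) (by rw [pow_succ]; omega) (by rw [pow_succ]; omega)
  have h1 : H L (2000 * (n + 1)) ((W x y ++ W x' y') ++ [])
      ((W x y ++ W x' y') ++ (wi (W (x + x') (y + y')) ++ W (x + x') (y + y'))) :=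
    (H.cancel' (by omega) _ le_rfl).symm.left _ (by
      simp only [List.length_append]; omega)
  have h2 : H L (2000 * (n + 1)) (((W x y ++ W x' y') ++ wi (W (x + x') (y + y'))) ++
      W (x + x') (y + y')) ([] ++ W (x + x') (y + y')) := by
    refine (sol_fill hL _ ?_ ?_).right _ ?_
    · intro z hz
      simp only [List.mem_append] at hz
      rcases hz with (hz | hz) | hz
      · exact W_sol _ _ z hz
      · exact W_sol _ _ z hz
      · exact IsSol_wi (W_sol _ _) z hz
    · rw [ev_append, ev_append, ev_wi, ev_W, ev_W, ev_W, uu_mul, mul_inv_cancel]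
    · simp only [List.length_append, length_wi]; omega
  rw [List.append_nil] at h1
  rw [List.append_assoc] at h2
  exact h1.trans (by simpa using h2)

/-- module M1 -/
theorem M1 : ∃ W C L₁, RadW W C L₁ := by
  refine ⟨W, 2000, 4, ev_W, W_zero, ?_, ?_⟩
  · intro x y n hx hy
    exact (len_W x y n hx hy).trans (by omega)
  · intro L hL x y x' y' n hx hy hx' hy'
    exact W_add hL x y x' y' n hx hy hx' hy'

end Pool.Agent.H20.SLF
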