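import Pool.Agent.H68.SLF.Defs

/-! M1, part a: letters of the Sol subgroup and commutation of nested words. -/

set_option autoImplicit false

namespace Pool.Agent.H20.SLF

open Pool.Agent.H68.SLF

/-- unit letters: `(false, s)` is `uu (±1) 0`, `(true, s)` is `uu 0 (±1)` -/
abbrev U := Bool × Bool

/-- the vector of a unit letter -/
def uv : U → ℤ × ℤ
  | (false, true) => (1, 0)
  | (false, false) => (-1, 0)
  | (true, true) => (0, 1)
  | (true, false) => (0, -1)

/-- `uu` on vectors -/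
def uu' (v : ℤ × ℤ) : G := uu v.1 v.2

lemma uu_mul (x y x' y' : ℤ) : uu x y * uu x' y' = uu (x + x') (y + y') := by
  apply Subtype.ext
  ext i j
  fin_cases i <;> fin_cases j <;>
    simp [uu, Matrix.mul_apply, Fin.sum_univ_three] <;> ring

lemma uu_zero : uu 0 0 = 1 := by
  apply Subtype.ext
  ext i j
  fin_cases i <;> fin_cases j <;> simp [uu]

lemma uu_inv (x y : ℤ) : (uu x y)⁻¹ = uu (-x) (-y) := by
  rw [inv_eq_iff_mul_eq_one, uu_mul]
  simp [uu_zero]

lemma uu'_add (v w : ℤ × ℤ) : uu' v * uu' w = uu' (v + w) := by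
  simp [uu', uu_mul]

lemma uu'_zero : uu' 0 = 1 := by simp [uu', uu_zero]

lemma uu'_inv (v : ℤ × ℤ) : (uu' v)⁻¹ = uu' (-v) := by simp [uu', uu_inv]

lemma uu'_inj {v w : ℤ × ℤ} (h : uu' v = uu' w) : v = w := by
  have h1 := congrArg (fun g : G => g.1 0 2) h
  have h2 := congrArg (fun g : G => g.1 1 2) h
  simp [uu', uu] at h1 h2
  exact Prod.ext h1 h2

lemma Bd_uu {x y : ℤ} (hx : x.natAbs ≤ 3) (hy : y.natAbs ≤ 3) : Bd (uu x y) := by
  intro i j
  rw [uu_inv]
  fin_cases i <;> fin_cases j <;> simp [uu, hx, hy]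

/-- the unit letters -/
def ul (u : U) : Lt := ⟨uu' (uv u), by
  rcases u with ⟨_ | _, _ | _⟩ <;> exact Bd_uu (by simp [uv]) (by simp [uv])⟩

@[simp] lemma ul_val (u : U) : (ul u).1 = uu' (uv u) := rfl

/-- the hyperbolic matrix and its inverse -/
def Dm : Bool → G
  | true => ⟨!![2, 1, 0; 1, 1, 0; 0, 0, 1], by simp [Matrix.det_fin_three]⟩
  | false => ⟨!![1, -1, 0; -1, 2, 0; 0, 0, 1], by simp [Matrix.det_fin_three]⟩

lemma Dm_mul (δ : Bool) : Dm δ * Dm (!δ) = 1 := by
  apply Subtype.ext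
  ext i j
  cases δ <;> fin_cases i <;> fin_cases j <;>
    simp [Dm, Matrix.mul_apply, Fin.sum_univ_three]

lemma Dm_inv (δ : Bool) : (Dm δ)⁻¹ = Dm (!δ) := by
  rw [inv_eq_iff_mul_eq_one, Dm_mul]

/-- the letters `D`, `D⁻¹` -/
def dl (δ : Bool) : Lt := ⟨Dm δ, by
  intro i j
  rw [Dm_inv]
  cases δ <;> fin_cases i <;> fin_cases j <;> simp [Dm]⟩

@[simp] lemma dl_val (δ : Bool) : (dl δ).1 = Dm δ := rfl

/-- the action of `D^{±1}` on vectors -/
def Da : Bool → ℤ × ℤ → ℤ × ℤ
  | true, v => (2 * v.1 + v.2, v.1 + v.2)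
  | false, v => (v.1 - v.2, -v.1 + 2 * v.2)

lemma Da_add (δ : Bool) (v w : ℤ × ℤ) : Da δ (v + w) = Da δ v + Da δ w := by
  cases δ <;> simp [Da] <;> constructor <;> ring

lemma Da_zero (δ : Bool) : Da δ 0 = 0 := by
  cases δ <;> simp [Da]

lemma Dm_uu (δ : Bool) (v : ℤ × ℤ) : Dm δ * uu' v = uu' (Da δ v) * Dm δ := by
  apply Subtype.ext
  ext i j
  cases δ <;> fin_cases i <;> fin_cases j <;>
    (simp [Dm, uu', uu, Da, Matrix.mul_apply, Fin.sum_univ_three]; try ring)

/-- image of a unit letter under conjugation by `D^{±1}` -/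
def act : Bool → U → List U
  | true, (false, s) => [(false, s), (false, s), (true, s)]
  | true, (true, s) => [(false, s), (true, s)]
  | false, (false, s) => [(false, s), (true, !s)]
  | false, (true, s) => [(false, !s), (true, s), (true, s)]

lemma length_act (δ : Bool) (u : U) : (act δ u).length ≤ 3 := by
  rcases u with ⟨_ | _, s⟩ <;> cases δ <;> simp [act]

/-- total vector of a list of units -/
def val (c : List U) : ℤ × ℤ := (c.map uv).sum

@[simp] lemma val_nil : val [] = 0 := rfl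
@[simp] lemma val_cons (u : U) (c : List U) : val (u :: c) = uv u + val c := by simp [val]
@[simp] lemma val_append (c d : List U) : val (c ++ d) = val c + val d := by simp [val]

lemma val_act (δ : Bool) (u : U) : val (act δ u) = Da δ (uv u) := by
  rcases u with ⟨_ | _, _ | _⟩ <;> cases δ <;> simp [act, uv, Da]

/-- the word of a list of units -/
abbrev uw (c : List U) : List Lt := c.map ul

lemma ev_uw (c : List U) : ev (uw c) = uu' (val c) := by
  induction c with
  | nil => simp [uu'_zero]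
  | cons u c ih => simp [ih, uu'_add]

/-- nested words: `Y δ (c :: cs) = D^δ c (Y δ cs) D^-δ` -/
def Y (δ : Bool) : List (List U) → List Lt
  | [] => []
  | c :: cs => dl δ :: (uw c ++ (Y δ cs ++ [dl (!δ)]))

/-- the vector of a nested word -/
def V (δ : Bool) : List (List U) → ℤ × ℤ
  | [] => 0
  | c :: cs => Da δ (val c + V δ cs)

lemma ev_Y (δ : Bool) (cs : List (List U)) : ev (Y δ cs) = uu' (V δ cs) := by
  induction cs with
  | nil => simp [Y, V, uu'_zero]
  | cons c cs ih =>
    simp only [Y, V, ev_cons, ev_append, ih, ev_uw, ev_nil, mul_one, dl_val]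
    rw [← mul_assoc (uu' _), uu'_add, ← mul_assoc, Dm_uu, mul_assoc, Dm_mul, mul_one]

/-! ### commutations -/

section
variable {L : ℕ}

/-- free cancellation of `D` letters -/
lemma H_dd (hL : 4 ≤ L) (δ : Bool) {n : ℕ} (hn : 2 ≤ n) : H L n [dl δ, dl (!δ)] [] :=
  H.one (by simp; omega) (by simp) (by simpa using hn) (by simp) (by simp [Dm_mul])

lemma H_dd' (hL : 4 ≤ L) (δ : Bool) {n : ℕ} (hn : 2 ≤ n) : H L n [dl (!δ), dl δ] [] := by
  have := H_dd hL (!δ) hn
  simpa using this

/-- `D u ~ (D u D⁻¹) D` -/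
lemma H_du (hL : 4 ≤ L) (δ : Bool) (u : U) {n : ℕ} (hn : 4 ≤ n) :
    H L n [dl δ, ul u] (uw (act δ u) ++ [dl δ]) := by
  have := length_act δ u
  refine H.one (by simp; omega) (by simp; omega) (by simp; omega) (by simp; omega) ?_
  rw [ev_append, ev_uw, val_act]
  simp [Dm_uu]

lemma H_swap (hL : 4 ≤ L) (u v : U) {n : ℕ} (hn : 2 ≤ n) :
    H L n [ul u, ul v] [ul v, ul u] :=
  H.one (by simp; omega) (by simp; omega) (by simpa using hn) (by simpa using hn)
    (by simp [uu'_add, add_comm])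

/-- a unit commutes with a list of units -/
lemma H_comm_u (hL : 4 ≤ L) (c : List U) (u : U) {n : ℕ} (hn : c.length + 1 ≤ n) :
    H L n (uw c ++ [ul u]) (ul u :: uw c) := by
  induction c generalizing n with
  | nil => exact H.refl _
  | cons x c ih =>
    simp only [List.length_cons] at hn
    have h1 : H L n (ul x :: (uw c ++ [ul u])) (ul x :: (ul u :: uw c)) :=
      (ih (n := c.length + 1) le_rfl).cons (ul x) (by omega)
    have h2 : H L n ([ul x, ul u] ++ uw c) ([ul u, ul x] ++ uw c) :=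
      (H_swap hL x u (n := 2) le_rfl).right _ (by simp; omega)
    simpa using h1.trans h2

/-- lists of units commute -/
lemma H_comm_uu (hL : 4 ≤ L) (c d : List U) {n : ℕ} (hn : c.length + d.length ≤ n) :
    H L n (uw c ++ uw d) (uw d ++ uw c) := by
  induction d generalizing n with
  | nil => simpa using H.refl _
  | cons x d ih =>
    simp only [List.length_cons] at hn
    have h1 : H L n ((uw c ++ [ul x]) ++ uw d) ((ul x :: uw c) ++ uw d) :=
      (H_comm_u hL c x (n := c.length + 1) le_rfl).right _ (by simp; omega)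
    have h2 : H L n (ul x :: (uw c ++ uw d)) (ul x :: (uw d ++ uw c)) :=
      (ih (n := c.length + d.length) le_rfl).cons (ul x) (by omega)
    simpa using h1.trans (by simpa using h2)

/-- if `X` commutes with units then with lists of units -/
lemma H_comm_list {X : List Lt} {m : ℕ} (hX : ∀ u, H L m (X ++ [ul u]) (ul u :: X))
    (c : List U) {n : ℕ} (hn : m + c.length ≤ n) :
    H L n (X ++ uw c) (uw c ++ X) := by
  induction c generalizing n with
  | nil => simpa using H.refl _
  | cons x c ih =>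
    simp only [List.length_cons] at hn
    have h1 : H L n ((X ++ [ul x]) ++ uw c) ((ul x :: X) ++ uw c) :=
      (hX x).right _ (by simp; omega)
    have h2 : H L n (ul x :: (X ++ uw c)) (ul x :: (uw c ++ X)) :=
      (ih (n := m + c.length) le_rfl).cons (ul x) (by omega)
    simpa using h1.trans (by simpa using h2)

/-- a unit commutes with a nested word -/
lemma H_comm_Y (hL : 4 ≤ L) (δ : Bool) (cs : List (List U)) (u : U) {n : ℕ}
    (hn : (Y δ cs).length + 3 * cs.length + 4 ≤ n) :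
    H L n (Y δ cs ++ [ul u]) (ul u :: Y δ cs) := by
  induction cs generalizing n u with
  | nil => exact H.refl _
  | cons c cs ih =>
    set m := act (!δ) u with hm
    have hml : m.length ≤ 3 := length_act _ _
    simp only [Y, List.length_cons, List.length_append, List.length_map, List.length_nil] at hn
    -- 1
    have h1 : H L n ((dl δ :: (uw c ++ Y δ cs)) ++ [dl (!δ), ul u])
        ((dl δ :: (uw c ++ Y δ cs)) ++ (uw m ++ [dl (!δ)])) :=
      (H_du hL (!δ) u (n := 4) le_rfl).left _ (by simp; omega)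
    -- 2
    have h2 : H L n ((dl δ :: uw c) ++ ((Y δ cs ++ uw m) ++ [dl (!δ)]))
        ((dl δ :: uw c) ++ ((uw m ++ Y δ cs) ++ [dl (!δ)])) :=
      (H_comm_list (m := (Y δ cs).length + 3 * cs.length + 4) (fun u => ih u le_rfl) m
        le_rfl).ctx _ _ (by simp; omega)
    -- 3
    have h3 : H L n ([dl δ] ++ ((uw c ++ uw m) ++ (Y δ cs ++ [dl (!δ)])))
        ([dl δ] ++ ((uw m ++ uw c) ++ (Y δ cs ++ [dl (!δ)]))) :=
      (H_comm_uu hL c m le_rfl).ctx _ _ (by simp; omega)
    -- 4
    have h4' : H L 4 ([dl δ] ++ uw m) [ul u, dl δ] := by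
      refine H.one (by simp; omega) (by simp; omega) (by simp; omega) (by simp) ?_
      rw [ev_append, ev_uw, hm, val_act]
      simp only [ev_cons, ev_nil, mul_one, dl_val, ul_val, Dm_uu]
      congr 2
      cases δ <;> rcases u with ⟨_ | _, _ | _⟩ <;> simp [Da, uv]
    have h4 : H L n (([dl δ] ++ uw m) ++ (uw c ++ (Y δ cs ++ [dl (!δ)])))
        ([ul u, dl δ] ++ (uw c ++ (Y δ cs ++ [dl (!δ)]))) :=
      h4'.right _ (by simp; omega)
    have e1 : Y δ (c :: cs) ++ [ul u] = (dl δ :: (uw c ++ Y δ cs)) ++ [dl (!δ), ul u] := by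
      simp [Y]
    have e2 : (dl δ :: (uw c ++ Y δ cs)) ++ (uw m ++ [dl (!δ)]) =
      (dl δ :: uw c) ++ ((Y δ cs ++ uw m) ++ [dl (!δ)]) := by simp
    have e3 : (dl δ :: uw c) ++ ((uw m ++ Y δ cs) ++ [dl (!δ)]) =
      [dl δ] ++ ((uw c ++ uw m) ++ (Y δ cs ++ [dl (!δ)])) := by simp
    have e4 : [dl δ] ++ ((uw m ++ uw c) ++ (Y δ cs ++ [dl (!δ)])) =
      ([dl δ] ++ uw m) ++ (uw c ++ (Y δ cs ++ [dl (!δ)])) := by simp
    have e5 : ul u :: Y δ (c :: cs) = [ul u, dl δ] ++ (uw c ++ (Y δ cs ++ [dl (!δ)])) := by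
      simp [Y]
    rw [e1, e5]
    rw [e2] at h1
    rw [e3] at h2
    rw [e4] at h3
    exact h1.trans (h2.trans (h3.trans h4))

lemma H_comm_Yc (hL : 4 ≤ L) (δ : Bool) (cs : List (List U)) (c : List U) {n : ℕ}
    (hn : (Y δ cs).length + 3 * cs.length + 4 + c.length ≤ n) :
    H L n (Y δ cs ++ uw c) (uw c ++ Y δ cs) :=
  H_comm_list (m := (Y δ cs).length + 3 * cs.length + 4) (fun u => H_comm_Y hL δ cs u le_rfl)
    c hn

end

end Pool.Agent.H20.SLF
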