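import Pool.Agent.H20.SLF.M1a

/-! M1, part b: normal form of Sol words. -/

set_option autoImplicit false

namespace Pool.Agent.H20.SLF

open Pool.Agent.H68.SLF

/-- letters of the Sol subgroup -/
def IsSol (x : Lt) : Prop := (∃ u, x = ul u) ∨ ∃ δ, x = dl δ

/-- the word `D^l` -/
def Dw (l : ℤ) : List Lt :=
  if 0 ≤ l then List.replicate l.natAbs (dl true) else List.replicate l.natAbs (dl false)

lemma length_Dw (l : ℤ) : (Dw l).length = l.natAbs := by
  unfold Dw; split_ifs <;> simp

/-- total number of units -/
def Su (cs : List (List U)) : ℕ := (cs.map List.length).sum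

@[simp] lemma Su_nil : Su [] = 0 := rfl
@[simp] lemma Su_cons (c : List U) (cs : List (List U)) : Su (c :: cs) = c.length + Su cs := by
  simp [Su]

lemma length_Y (δ : Bool) (cs : List (List U)) : (Y δ cs).length = 2 * cs.length + Su cs := by
  induction cs with
  | nil => simp [Y]
  | cons c cs ih => simp [Y, ih]; ring

/-- the integer `±1` -/
def sg : Bool → ℤ
  | true => 1
  | false => -1

section
variable {L : ℕ}

lemma H_Dw (hL : 4 ≤ L) (l : ℤ) (δ : Bool) {n : ℕ} (hn : l.natAbs + 1 ≤ n) :
    H L n (Dw l ++ [dl δ]) (Dw (l + sg δ)) := by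
  have key : ∀ (k : ℕ) (ε : Bool), k + 2 ≤ n →
      H L n (List.replicate (k + 1) (dl ε) ++ [dl (!ε)]) (List.replicate k (dl ε)) := by
    intro k ε hk
    have := (H_dd hL ε (n := 2) le_rfl).left (List.replicate k (dl ε)) (m := n) (by simp; omega)
    rw [List.replicate_succ']
    simpa using this
  cases δ with
  | true =>
    rcases le_or_gt 0 l with h | h
    · have e : Dw (l + sg true) = Dw l ++ [dl true] := by
        have h1 : (l + 1).natAbs = l.natAbs + 1 := by omega
        have h2 : 0 ≤ l + 1 := by omega
        simp only [Dw, sg, h, h2, if_true, h1, List.replicate_succ']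
      rw [e]
      exact H.refl _
    · obtain ⟨k, hk⟩ : ∃ k : ℕ, l = -((k : ℤ) + 1) := ⟨(-l - 1).natAbs, by omega⟩
      have e1 : Dw l = List.replicate (k + 1) (dl false) := by
        have h1 : l.natAbs = k + 1 := by omega
        have h2 : ¬ (0 ≤ l) := by omega
        simp only [Dw, h2, if_false, h1]
      have e2 : Dw (l + sg true) = List.replicate k (dl false) := by
        have h1 : (l + 1).natAbs = k := by omega
        by_cases h3 : k = 0
        · subst h3
          have h4 : l + 1 = 0 := by omega
          simp [Dw, sg, h4]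
        · have h2 : ¬ (0 ≤ l + 1) := by omega
          simp only [Dw, sg, h2, if_false, h1]
      rw [e1, e2]
      exact key k false (by omega)
  | false =>
    rcases le_or_gt l 0 with h | h
    · have e : Dw (l + sg false) = Dw l ++ [dl false] := by
        have h1 : (l + (-1)).natAbs = l.natAbs + 1 := by omega
        have h2 : ¬ (0 ≤ l + (-1)) := by omega
        by_cases h3 : l = 0
        · subst h3; simp [Dw, sg]
        · have h4 : ¬ (0 ≤ l) := by omega
          simp only [Dw, sg, h4, h2, if_false, h1, List.replicate_succ']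
      rw [e]
      exact H.refl _
    · obtain ⟨k, hk⟩ : ∃ k : ℕ, l = (k : ℤ) + 1 := ⟨(l - 1).natAbs, by omega⟩
      have e1 : Dw l = List.replicate (k + 1) (dl true) := by
        have h1 : l.natAbs = k + 1 := by omega
        have h2 : 0 ≤ l := by omega
        simp only [Dw, h2, if_true, h1]
      have e2 : Dw (l + sg false) = List.replicate k (dl true) := by
        have h1 : (l + (-1)).natAbs = k := by omega
        have h2 : 0 ≤ l + (-1) := by omega
        simp only [Dw, sg, h2, if_true, h1]
      rw [e1, e2]
      exact key k true (by omega)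

/-- the normal form -/
def NF (l : ℤ) (up down : List (List U)) (c : List U) : List Lt :=
  Dw l ++ (Y true up ++ (Y false down ++ uw c))

lemma length_NF (l : ℤ) (up down : List (List U)) (c : List U) :
    (NF l up down c).length =
      l.natAbs + (2 * up.length + Su up) + (2 * down.length + Su down) + c.length := by
  simp [NF, length_Dw, length_Y]; ring

/-- appending `D` -/
lemma H_NF_true (hL : 4 ≤ L) (l : ℤ) (up down : List (List U)) (c : List U) {n : ℕ}
    (hn : (NF l up down c).length + 3 * (up.length + down.length + 1) + 8 ≤ n) :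
    ∃ up' c', H L n (NF l up down c ++ [dl true]) (NF (l + 1) up' (c :: down) c') ∧
      up'.length ≤ up.length ∧ Su up' + c'.length = Su up := by
  rw [length_NF] at hn
  -- move `c` to the left of `Y false down`
  have h1 : H L n ((Dw l ++ Y true up) ++ ((Y false down ++ uw c) ++ [dl true]))
      ((Dw l ++ Y true up) ++ ((uw c ++ Y false down) ++ [dl true])) :=
    (H_comm_Yc hL false down c le_rfl).ctx _ _ (by
      simp [length_Dw, length_Y]; omega)
  -- insert `D D⁻¹`
  have h2 : H L n ((Dw l ++ Y true up) ++ ([] ++ (uw c ++ (Y false down ++ [dl true]))))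
      ((Dw l ++ Y true up) ++ ([dl true, dl false] ++ (uw c ++ (Y false down ++ [dl true])))) :=
    (H_dd hL true (n := 2) le_rfl).symm.ctx _ _ (by
      simp [length_Dw, length_Y]; omega)
  have h12 : H L n (NF l up down c ++ [dl true])
      ((Dw l ++ Y true up) ++ ([dl true] ++ Y false (c :: down))) := by
    have e1 : NF l up down c ++ [dl true] =
        (Dw l ++ Y true up) ++ ((Y false down ++ uw c) ++ [dl true]) := by simp [NF]
    have e2 : (Dw l ++ Y true up) ++ ((uw c ++ Y false down) ++ [dl true]) =
        (Dw l ++ Y true up) ++ ([] ++ (uw c ++ (Y false down ++ [dl true]))) := by simp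
    have e3 : (Dw l ++ Y true up) ++
        ([dl true, dl false] ++ (uw c ++ (Y false down ++ [dl true]))) =
        (Dw l ++ Y true up) ++ ([dl true] ++ Y false (c :: down)) := by simp [Y]
    rw [e1, ← e3]
    rw [e2] at h1
    exact h1.trans h2
  cases up with
  | nil =>
    refine ⟨[], [], ?_, by simp, by simp⟩
    refine h12.trans ?_
    have h3 : H L n ((Dw l ++ [dl true]) ++ Y false (c :: down))
        (Dw (l + sg true) ++ Y false (c :: down)) :=
      (H_Dw hL l true le_rfl).right _ (by simp [length_Y]; simp at hn; omega)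
    simpa [NF, Y, sg] using h3
  | cons b up =>
    simp only [List.length_cons, Su_cons] at hn
    refine ⟨up, b, ?_, by simp, by simp; ring⟩
    refine h12.trans ?_
    -- cancel `D⁻¹ D`
    have h3 : H L n ((Dw l ++ (dl true :: (uw b ++ Y true up))) ++
          ([dl false, dl true] ++ Y false (c :: down)))
        ((Dw l ++ (dl true :: (uw b ++ Y true up))) ++ ([] ++ Y false (c :: down))) :=
      (H_dd' hL true (n := 2) le_rfl).ctx _ _ (by
        simp [length_Dw, length_Y]; omega)
    -- D^l D
    have h4 : H L n ((Dw l ++ [dl true]) ++ ((uw b ++ Y true up) ++ Y false (c :: down)))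
        (Dw (l + sg true) ++ ((uw b ++ Y true up) ++ Y false (c :: down))) :=
      (H_Dw hL l true le_rfl).right _ (by simp [length_Y]; omega)
    -- move b to the right
    have h5 : H L n (Dw (l + 1) ++ ((uw b ++ Y true up) ++ Y false (c :: down)))
        (Dw (l + 1) ++ ((Y true up ++ uw b) ++ Y false (c :: down))) :=
      (H_comm_Yc hL true up b le_rfl).symm.ctx _ _ (by
        simp [length_Dw, length_Y]; omega)
    have h6 : H L n ((Dw (l + 1) ++ Y true up) ++ (uw b ++ Y false (c :: down)))
        ((Dw (l + 1) ++ Y true up) ++ (Y false (c :: down) ++ uw b)) :=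
      (H_comm_Yc hL false (c :: down) b le_rfl).symm.left _ (by
        simp [length_Dw, length_Y]; omega)
    have e1 : (Dw l ++ Y true (b :: up)) ++ ([dl true] ++ Y false (c :: down)) =
        (Dw l ++ (dl true :: (uw b ++ Y true up))) ++
          ([dl false, dl true] ++ Y false (c :: down)) := by simp [Y]
    have e2 : (Dw l ++ (dl true :: (uw b ++ Y true up))) ++ ([] ++ Y false (c :: down)) =
        (Dw l ++ [dl true]) ++ ((uw b ++ Y true up) ++ Y false (c :: down)) := by simp
    have e3 : Dw (l + 1) ++ ((Y true up ++ uw b) ++ Y false (c :: down)) =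
        (Dw (l + 1) ++ Y true up) ++ (uw b ++ Y false (c :: down)) := by simp
    have e4 : NF (l + 1) up (c :: down) b =
        (Dw (l + 1) ++ Y true up) ++ (Y false (c :: down) ++ uw b) := by simp [NF]
    rw [e1, e4]
    rw [e2] at h3
    rw [e3] at h5
    simp only [sg] at h4
    exact h3.trans (h4.trans (h5.trans h6))

/-- appending `D⁻¹` -/
lemma H_NF_false (hL : 4 ≤ L) (l : ℤ) (up down : List (List U)) (c : List U) {n : ℕ}
    (hn : (NF l up down c).length + 3 * (up.length + down.length + 1) + 8 ≤ n) :
    ∃ down' c', H L n (NF l up down c ++ [dl false]) (NF (l - 1) (c :: up) down' c') ∧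
      down'.length ≤ down.length ∧ Su down' + c'.length = Su down := by
  rw [length_NF] at hn
  -- general step: `D^l Y(up) c D⁻¹ R ~ D^(l-1) Y(c :: up) R`
  have gen : ∀ R : List Lt, R.length ≤ 2 * down.length + Su down →
      H L n (Dw l ++ (Y true up ++ (uw c ++ ([dl false] ++ R))))
        (Dw (l - 1) ++ (Y true (c :: up) ++ R)) := by
    intro R hR
    have h1 : H L n (Dw l ++ ((Y true up ++ uw c) ++ ([dl false] ++ R)))
        (Dw l ++ ((uw c ++ Y true up) ++ ([dl false] ++ R))) :=
      (H_comm_Yc hL true up c le_rfl).ctx _ _ (by simp [length_Dw, length_Y]; omega)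
    have h2 : H L n (Dw l ++ ([] ++ (uw c ++ (Y true up ++ ([dl false] ++ R)))))
        (Dw l ++ ([dl false, dl true] ++ (uw c ++ (Y true up ++ ([dl false] ++ R))))) :=
      (H_dd hL false (n := 2) le_rfl).symm.ctx _ _ (by simp [length_Dw, length_Y]; omega)
    have h3 : H L n ((Dw l ++ [dl false]) ++ (Y true (c :: up) ++ R))
        (Dw (l + sg false) ++ (Y true (c :: up) ++ R)) :=
      (H_Dw hL l false le_rfl).right _ (by simp [length_Y]; omega)
    have e1 : Dw l ++ (Y true up ++ (uw c ++ ([dl false] ++ R))) =
        Dw l ++ ((Y true up ++ uw c) ++ ([dl false] ++ R)) := by simp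
    have e2 : Dw l ++ ((uw c ++ Y true up) ++ ([dl false] ++ R)) =
        Dw l ++ ([] ++ (uw c ++ (Y true up ++ ([dl false] ++ R)))) := by simp
    have e3 : Dw l ++ ([dl false, dl true] ++ (uw c ++ (Y true up ++ ([dl false] ++ R)))) =
        (Dw l ++ [dl false]) ++ (Y true (c :: up) ++ R) := by simp [Y]
    have e4 : l + sg false = l - 1 := by simp [sg]; ring
    rw [e2] at h1
    rw [e3] at h2
    rw [e4] at h3
    rw [e1]
    exact h1.trans (h2.trans h3)
  cases down with
  | nil =>
    refine ⟨[], [], ?_, by simp, by simp⟩
    have := gen [] (by simp)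
    simpa [NF, Y] using this
  | cons b down =>
    simp only [List.length_cons, Su_cons] at hn gen
    refine ⟨down, b, ?_, by simp, by simp; ring⟩
    -- move `c` left
    have h1 : H L n ((Dw l ++ Y true up) ++ ((Y false (b :: down) ++ uw c) ++ [dl false]))
        ((Dw l ++ Y true up) ++ ((uw c ++ Y false (b :: down)) ++ [dl false])) :=
      (H_comm_Yc hL false (b :: down) c le_rfl).ctx _ _ (by
        simp [length_Dw, length_Y]; omega)
    -- cancel
    have h2 : H L n ((Dw l ++ (Y true up ++ (uw c ++ (dl false :: (uw b ++ Y false down))))) ++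
          [dl true, dl false])
        ((Dw l ++ (Y true up ++ (uw c ++ (dl false :: (uw b ++ Y false down))))) ++ []) :=
      (H_dd hL true (n := 2) le_rfl).left _ (by simp [length_Dw, length_Y]; omega)
    have h3 := gen (uw b ++ Y false down) (by simp [length_Y]; omega)
    have h4 : H L n ((Dw (l - 1) ++ Y true (c :: up)) ++ (uw b ++ Y false down))
        ((Dw (l - 1) ++ Y true (c :: up)) ++ (Y false down ++ uw b)) :=
      (H_comm_Yc hL false down b le_rfl).symm.left _ (by
        simp [length_Dw, length_Y]; omega)
    have e1 : NF l up (b :: down) c ++ [dl false] =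
        (Dw l ++ Y true up) ++ ((Y false (b :: down) ++ uw c) ++ [dl false]) := by simp [NF]
    have e2 : (Dw l ++ Y true up) ++ ((uw c ++ Y false (b :: down)) ++ [dl false]) =
        (Dw l ++ (Y true up ++ (uw c ++ (dl false :: (uw b ++ Y false down))))) ++
          [dl true, dl false] := by simp [Y]
    have e3 : (Dw l ++ (Y true up ++ (uw c ++ (dl false :: (uw b ++ Y false down))))) ++ [] =
        Dw l ++ (Y true up ++ (uw c ++ ([dl false] ++ (uw b ++ Y false down)))) := by simp
    have e4 : Dw (l - 1) ++ (Y true (c :: up) ++ (uw b ++ Y false down)) =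
        (Dw (l - 1) ++ Y true (c :: up)) ++ (uw b ++ Y false down) := by simp
    have e5 : NF (l - 1) (c :: up) down b =
        (Dw (l - 1) ++ Y true (c :: up)) ++ (Y false down ++ uw b) := by simp [NF]
    rw [e1, e5]
    rw [e2] at h1
    rw [e3] at h2
    rw [e4] at h3
    exact h1.trans (h2.trans (h3.trans h4))

/-- every Sol word can be brought to normal form in linear space -/
theorem exists_NF (hL : 4 ≤ L) (w : List Lt) (hw : ∀ x ∈ w, IsSol x) :
    ∃ l up down c, H L (20 * (w.length + 1)) w (NF l up down c) ∧
      l.natAbs + up.length + down.length + Su up + Su down + c.length ≤ 3 * w.length ∧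
      l.natAbs ≤ w.length ∧ up.length + down.length ≤ w.length ∧
      Su up + Su down + c.length ≤ w.length := by
  induction w using List.reverseRecOn with
  | nil =>
    exact ⟨0, [], [], [], by simpa [NF, Y, Dw] using H.refl _, by simp, by simp, by simp,
      by simp⟩
  | append_singleton w x ih =>
    obtain ⟨l, up, down, c, h, h0, h1, h2, h3⟩ := ih (fun y hy => hw y (by simp [hy]))
    have hx : IsSol x := hw x (by simp)
    have hr : H L (20 * ((w ++ [x]).length + 1)) (w ++ [x]) (NF l up down c ++ [x]) :=
      h.right [x] (by simp only [List.length_append, List.length_singleton]; omega)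
    have hlen : (NF l up down c).length + 3 * (up.length + down.length + 1) + 8 ≤
        20 * ((w ++ [x]).length + 1) := by
      rw [length_NF]; simp; omega
    rcases hx with ⟨u, rfl⟩ | ⟨δ, rfl⟩
    · refine ⟨l, up, down, c ++ [u], ?_, ?_, ?_, ?_, ?_⟩
      · convert hr using 1
        simp [NF]
      all_goals simp; omega
    · cases δ with
      | true =>
        obtain ⟨up', c', hh, ha, hb⟩ := H_NF_true hL l up down c hlen
        refine ⟨l + 1, up', c :: down, c', hr.trans hh, ?_, ?_, ?_, ?_⟩
        all_goals simp; omega
      | false =>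
        obtain ⟨down', c', hh, ha, hb⟩ := H_NF_false hL l up down c hlen
        refine ⟨l - 1, c :: up, down', c', hr.trans hh, ?_, ?_, ?_, ?_⟩
        all_goals simp; omega

end

end Pool.Agent.H20.SLF
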