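import Pool.Agent.H20.SLF.M1b

/-! M1, part c: folding nested words; trivial Sol words are trivial in linear space. -/

set_option autoImplicit false

namespace Pool.Agent.H20.SLF

open Pool.Agent.H68.SLF

/-- unary word of a vector -/
def vw (v : ℤ × ℤ) : List U :=
  List.replicate v.1.natAbs (false, decide (0 ≤ v.1)) ++
    List.replicate v.2.natAbs (true, decide (0 ≤ v.2))

lemma length_vw (v : ℤ × ℤ) : (vw v).length = v.1.natAbs + v.2.natAbs := by simp [vw]

lemma vw_zero : vw 0 = [] := by simp [vw]

lemma uv_eq (b s : Bool) : uv (b, s) = if b then (0, sg s) else (sg s, 0) := by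
  cases b <;> cases s <;> simp [uv, sg]

section
variable {L : ℕ}

lemma ev_cancel (b s : Bool) : ev (uw [(b, s), (b, !s)]) = 1 := by
  rw [ev_uw]
  cases b <;> cases s <;> simp [uv, ← Prod.zero_eq_mk, uu'_zero]

/-- unary words in one direction: appending a letter -/
lemma H_pw (hL : 4 ≤ L) (b : Bool) (x : ℤ) (s : Bool) {n : ℕ} (hn : x.natAbs + 1 ≤ n) :
    H L n (uw (List.replicate x.natAbs (b, decide (0 ≤ x)) ++ [(b, s)]))
      (uw (List.replicate (x + sg s).natAbs (b, decide (0 ≤ x + sg s)))) := by
  have key : ∀ (k : ℕ) (ε : Bool), k + 2 ≤ n →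
      H L n (uw (List.replicate (k + 1) (b, ε) ++ [(b, !ε)])) (uw (List.replicate k (b, ε))) := by
    intro k ε hk
    have h1 : H L 2 (uw [(b, ε), (b, !ε)]) [] :=
      H.one (by simp; omega) (by simp) (by simp) (by simp) (ev_cancel b ε)
    have := h1.left (uw (List.replicate k (b, ε))) (m := n) (by simp; omega)
    rw [List.replicate_succ']
    simpa using this
  cases s with
  | true =>
    rcases le_or_gt 0 x with h | h
    · have e : List.replicate (x + sg true).natAbs (b, decide (0 ≤ x + sg true)) =
          List.replicate x.natAbs (b, decide (0 ≤ x)) ++ [(b, true)] := by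
        have h1 : (x + 1).natAbs = x.natAbs + 1 := by omega
        have h2 : 0 ≤ x + 1 := by omega
        simp only [sg, h, h2, decide_true, h1, List.replicate_succ']
      rw [e]
      exact H.refl _
    · obtain ⟨k, hk⟩ : ∃ k : ℕ, x = -((k : ℤ) + 1) := ⟨(-x - 1).natAbs, by omega⟩
      have e1 : List.replicate x.natAbs (b, decide (0 ≤ x)) =
          List.replicate (k + 1) (b, false) := by
        have h1 : x.natAbs = k + 1 := by omega
        have h2 : ¬ (0 ≤ x) := by omega
        simp only [h2, decide_false, h1]
      have e2 : List.replicate (x + sg true).natAbs (b, decide (0 ≤ x + sg true)) =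
          List.replicate k (b, false) := by
        have h1 : (x + 1).natAbs = k := by omega
        by_cases h3 : k = 0
        · subst h3
          have h4 : x + 1 = 0 := by omega
          simp [sg, h4]
        · have h2 : ¬ (0 ≤ x + 1) := by omega
          simp only [sg, h2, decide_false, h1]
      rw [e1, e2]
      exact key k false (by omega)
  | false =>
    rcases le_or_gt x 0 with h | h
    · have e : List.replicate (x + sg false).natAbs (b, decide (0 ≤ x + sg false)) =
          List.replicate x.natAbs (b, decide (0 ≤ x)) ++ [(b, false)] := by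
        have h1 : (x + (-1)).natAbs = x.natAbs + 1 := by omega
        have h2 : ¬ (0 ≤ x + (-1)) := by omega
        by_cases h3 : x = 0
        · subst h3; simp [sg]
        · have h4 : ¬ (0 ≤ x) := by omega
          simp only [sg, h4, h2, decide_false, h1, List.replicate_succ']
      rw [e]
      exact H.refl _
    · obtain ⟨k, hk⟩ : ∃ k : ℕ, x = (k : ℤ) + 1 := ⟨(x - 1).natAbs, by omega⟩
      have e1 : List.replicate x.natAbs (b, decide (0 ≤ x)) =
          List.replicate (k + 1) (b, true) := by
        have h1 : x.natAbs = k + 1 := by omega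
        have h2 : 0 ≤ x := by omega
        simp only [h2, decide_true, h1]
      have e2 : List.replicate (x + sg false).natAbs (b, decide (0 ≤ x + sg false)) =
          List.replicate k (b, true) := by
        have h1 : (x + (-1)).natAbs = k := by omega
        have h2 : 0 ≤ x + (-1) := by omega
        simp only [sg, h2, decide_true, h1]
      rw [e1, e2]
      exact key k true (by omega)

lemma H_vw_append (hL : 4 ≤ L) (v : ℤ × ℤ) (u : U) {n : ℕ}
    (hn : v.1.natAbs + v.2.natAbs + 1 ≤ n) :
    H L n (uw (vw v ++ [u])) (uw (vw (v + uv u))) := by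
  obtain ⟨b, s⟩ := u
  cases b with
  | true =>
    have h1 := (H_pw hL true v.2 s le_rfl).left
      (uw (List.replicate v.1.natAbs (false, decide (0 ≤ v.1)))) (m := n) (by simp; omega)
    have e2 : (v + uv (true, s)) = (v.1, v.2 + sg s) := by ext <;> simp [uv_eq]
    rw [e2]
    simpa [vw] using h1
  | false =>
    have e2 : (v + uv (false, s)) = (v.1 + sg s, v.2) := by ext <;> simp [uv_eq]
    rw [e2]
    have h0 : H L n (uw (List.replicate v.1.natAbs (false, decide (0 ≤ v.1))) ++
        (uw (List.replicate v.2.natAbs (true, decide (0 ≤ v.2))) ++ [ul (false, s)]))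
        (uw (List.replicate v.1.natAbs (false, decide (0 ≤ v.1))) ++
        (ul (false, s) :: uw (List.replicate v.2.natAbs (true, decide (0 ≤ v.2))))) :=
      (H_comm_u hL _ (false, s) le_rfl).left _ (by simp; omega)
    have h1 := (H_pw hL false v.1 s le_rfl).right
      (uw (List.replicate v.2.natAbs (true, decide (0 ≤ v.2)))) (m := n) (by simp; omega)
    refine H.trans (v := uw (List.replicate v.1.natAbs (false, decide (0 ≤ v.1))) ++
        (ul (false, s) :: uw (List.replicate v.2.natAbs (true, decide (0 ≤ v.2))))) ?_ ?_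
    · simpa [vw] using h0
    · simpa [vw] using h1

lemma natAbs_val_le (c : List U) : (val c).1.natAbs + (val c).2.natAbs ≤ c.length := by
  induction c with
  | nil => simp
  | cons u c ih =>
    have h : (uv u).1.natAbs + (uv u).2.natAbs = 1 := by
      rcases u with ⟨_ | _, _ | _⟩ <;> simp [uv]
    simp only [val_cons, List.length_cons, Prod.fst_add, Prod.snd_add]
    omega

/-- sorting a list of units -/
lemma H_sort (hL : 4 ≤ L) (c : List U) {n : ℕ} (hn : c.length + 1 ≤ n) :
    H L n (uw c) (uw (vw (val c))) := by
  induction c using List.reverseRecOn generalizing n with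
  | nil => simpa [vw_zero] using H.refl _
  | append_singleton c u ih =>
    simp only [List.length_append, List.length_singleton] at hn
    have hv := natAbs_val_le c
    have h1 : H L n (uw c ++ [ul u]) (uw (vw (val c)) ++ [ul u]) :=
      H.right (ih (n := c.length + 1) le_rfl) [ul u] (by simp; omega)
    have h2 : H L n (uw (vw (val c) ++ [u])) (uw (vw (val c + uv u))) :=
      H_vw_append hL (val c) u (by omega)
    have e : val (c ++ [u]) = val c + uv u := by simp
    rw [e]
    simpa using h1.trans (by simpa using h2)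

/-- two lists of units with the same vector -/
lemma H_val_eq (hL : 4 ≤ L) (c d : List U) (h : val c = val d) {n : ℕ}
    (hn : c.length + 1 ≤ n) (hn' : d.length + 1 ≤ n) : H L n (uw c) (uw d) := by
  have h1 := H_sort hL c hn
  rw [h] at h1
  exact h1.trans (H_sort hL d hn').symm

lemma val_replicate (k : ℕ) (u : U) : val (List.replicate k u) = k • uv u := by
  simp [val, List.sum_replicate]

lemma val_vw (v : ℤ × ℤ) : val (vw v) = v := by
  have key : ∀ (b : Bool) (x : ℤ), val (List.replicate x.natAbs (b, decide (0 ≤ x))) =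
      if b then (0, x) else (x, 0) := by
    intro b x
    rw [val_replicate, uv_eq]
    rcases le_or_gt 0 x with h | h
    · have h1 : ((x.natAbs : ℤ)) = x := by omega
      cases b <;> simp [h, sg]
    · have h1 : ((x.natAbs : ℤ)) = -x := by omega
      have h2 : ¬ (0 ≤ x) := by omega
      cases b <;> simp [h2, sg, h1]
  simp only [vw, val_append, key]
  ext <;> simp

/-- conjugating a list of units -/
lemma H_du_list (hL : 4 ≤ L) (δ : Bool) (m : List U) {n : ℕ} (hn : 3 * m.length + 1 ≤ n) :
    H L n (dl δ :: uw m) (uw (m.flatMap (act δ)) ++ [dl δ]) := by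
  induction m generalizing n with
  | nil => exact H.refl _
  | cons x m ih =>
    simp only [List.length_cons] at hn
    have hx := length_act δ x
    have h1 : H L n ([dl δ, ul x] ++ uw m) ((uw (act δ x) ++ [dl δ]) ++ uw m) :=
      (H_du hL δ x (n := 4) le_rfl).right _ (by simp; omega)
    have h2 : H L n (uw (act δ x) ++ (dl δ :: uw m))
        (uw (act δ x) ++ (uw (m.flatMap (act δ)) ++ [dl δ])) :=
      (ih (n := 3 * m.length + 1) le_rfl).left _ (by simp; omega)
    simpa using h1.trans (by simpa using h2)

lemma length_flatMap_act (δ : Bool) (m : List U) :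
    (m.flatMap (act δ)).length ≤ 3 * m.length := by
  induction m with
  | nil => simp
  | cons x m ih =>
    have := length_act δ x
    simp only [List.flatMap_cons, List.length_append, List.length_cons]
    omega

lemma val_flatMap_act (δ : Bool) (m : List U) : val (m.flatMap (act δ)) = Da δ (val m) := by
  induction m with
  | nil => simp [Da_zero]
  | cons x m ih => simp [ih, val_act, Da_add]

lemma H_conj (hL : 4 ≤ L) (δ : Bool) (m : List U) {n : ℕ} (hn : 3 * m.length + 2 ≤ n) :
    H L n (dl δ :: (uw m ++ [dl (!δ)])) (uw (vw (Da δ (val m)))) := by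
  have hl := length_flatMap_act δ m
  have h1 : H L n ((dl δ :: uw m) ++ [dl (!δ)])
      ((uw (m.flatMap (act δ)) ++ [dl δ]) ++ [dl (!δ)]) :=
    (H_du_list hL δ m le_rfl).right _ (by simp; omega)
  have h2 : H L n (uw (m.flatMap (act δ)) ++ [dl δ, dl (!δ)])
      (uw (m.flatMap (act δ)) ++ []) :=
    (H_dd hL δ (n := 2) le_rfl).left _ (by simp only [List.length_map]; omega)
  have h3 : H L n (uw (m.flatMap (act δ))) (uw (vw (val (m.flatMap (act δ))))) :=
    H_sort hL _ (by omega)
  rw [val_flatMap_act] at h3
  have e1 : (uw (m.flatMap (act δ)) ++ [dl δ]) ++ [dl (!δ)] =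
    uw (m.flatMap (act δ)) ++ [dl δ, dl (!δ)] := by simp
  rw [e1] at h1
  rw [List.append_nil] at h2
  exact h1.trans (h2.trans h3)

end

/-! ### eigenfunctionals -/

/-- the golden ratio -/
noncomputable abbrev ph : ℝ := Real.goldenRatio

lemma ph_sq : ph ^ 2 = ph + 1 := Real.goldenRatio_sq
lemma one_lt_ph : 1 < ph := Real.one_lt_goldenRatio
lemma ph_lt_two : ph < 2 := Real.goldenRatio_lt_two

/-- eigenfunctionals of `D` -/
noncomputable def E : Bool → ℤ × ℤ → ℝ
  | true, v => ph * v.1 + v.2
  | false, v => v.1 - ph * v.2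

lemma E_add (δ : Bool) (v w : ℤ × ℤ) : E δ (v + w) = E δ v + E δ w := by
  cases δ <;> simp [E] <;> ring

lemma E_exp (δ : Bool) (v : ℤ × ℤ) : E δ (Da δ v) = ph ^ 2 * E δ v := by
  have h := ph_sq
  cases δ
  · simp only [E, Da]; push_cast
    linear_combination (-(v.1 : ℝ) + (v.2 : ℝ) * (ph + 1)) * h
  · simp only [E, Da]; push_cast
    linear_combination (-(v.1 : ℝ) * (ph + 1) - (v.2 : ℝ)) * h

lemma E_con (δ : Bool) (v : ℤ × ℤ) : ph ^ 2 * E (!δ) (Da δ v) = E (!δ) v := by
  have h := ph_sq
  cases δ
  · simp only [E, Da, Bool.not_false]; push_cast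
    linear_combination ((v.1 : ℝ) * ph - (v.1 : ℝ) + (v.2 : ℝ) * (2 - ph) + (v.1 : ℝ)
      - (v.2 : ℝ)) * h
  · simp only [E, Da, Bool.not_true]; push_cast
    linear_combination ((v.1 : ℝ) * (1 - ph) - (v.2 : ℝ) * ph) * h

end Pool.Agent.H20.SLF
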