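import Pool.Agent.H20.SLF.M1c

/-! M1, part d: trivial Sol words are trivial in linear space. -/

set_option autoImplicit false

namespace Pool.Agent.H20.SLF

open Pool.Agent.H68.SLF

lemma ph_pos : 0 < ph := by linarith [one_lt_ph]

lemma E_val (δ : Bool) (c : List U) : |E δ (val c)| ≤ 2 * c.length := by
  induction c with
  | nil => cases δ <;> simp [E]
  | cons u c ih =>
    have h1 := one_lt_ph
    have h2 := ph_lt_two
    have h : |E δ (uv u)| ≤ 2 := by
      rcases u with ⟨_ | _, _ | _⟩ <;> cases δ <;> simp only [E, uv] <;> push_cast <;>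
        rw [abs_le] <;> constructor <;> linarith
    rw [val_cons, E_add]
    refine (abs_add_le _ _).trans ?_
    push_cast [List.length_cons]
    linarith

lemma E_con_V (δ : Bool) (cs : List (List U)) : |E (!δ) (V δ cs)| ≤ 2 * Su cs := by
  induction cs with
  | nil => cases δ <;> simp [E, V]
  | cons c cs ih =>
    have h1 := one_lt_ph
    have h := E_con δ (val c + V δ cs)
    have h2 : |E (!δ) (V δ (c :: cs))| ≤ ph ^ 2 * |E (!δ) (V δ (c :: cs))| := by
      have : 1 ≤ ph ^ 2 := by nlinarith
      nlinarith [abs_nonneg (E (!δ) (V δ (c :: cs)))]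
    have h3 : ph ^ 2 * |E (!δ) (V δ (c :: cs))| = |E (!δ) (val c + V δ cs)| := by
      rw [← h, abs_mul, abs_of_pos (by positivity : (0 : ℝ) < ph ^ 2)]
      rfl
    have h4 : |E (!δ) (val c + V δ cs)| ≤ 2 * c.length + 2 * Su cs := by
      rw [E_add]
      exact (abs_add_le _ _).trans (add_le_add (E_val _ _) ih)
    rw [Su_cons]; push_cast
    linarith

lemma E_exp_V (δ : Bool) (c : List U) (cs : List (List U)) :
    |E δ (V δ cs)| ≤ |E δ (V δ (c :: cs))| + 2 * c.length := by
  have h1 := one_lt_ph
  have h := E_exp δ (val c + V δ cs)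
  have h3 : |E δ (V δ (c :: cs))| = ph ^ 2 * |E δ (val c + V δ cs)| := by
    rw [← abs_of_pos (by positivity : (0 : ℝ) < ph ^ 2), ← abs_mul, ← h]
    rfl
  have h2 : |E δ (val c + V δ cs)| ≤ ph ^ 2 * |E δ (val c + V δ cs)| := by
    have : 1 ≤ ph ^ 2 := by nlinarith
    nlinarith [abs_nonneg (E δ (val c + V δ cs))]
  have h4 : E δ (V δ cs) = E δ (val c + V δ cs) - E δ (val c) := by rw [E_add]; ring
  rw [h4]
  refine (abs_sub _ _).trans ?_
  have := E_val δ c
  linarith

lemma norm_le (v : ℤ × ℤ) : ((v.1.natAbs + v.2.natAbs : ℕ) : ℝ) ≤ |E true v| + |E false v| := by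
  have h1 := one_lt_ph
  have h2 := ph_sq
  push_cast
  rw [Nat.cast_natAbs, Nat.cast_natAbs]
  push_cast
  have e1 : (v.1 : ℝ) * (ph ^ 2 + 1) = ph * E true v + E false v := by simp only [E]; ring
  have e2 : (v.2 : ℝ) * (ph ^ 2 + 1) = E true v - ph * E false v := by simp only [E]; ring
  have hp : (0 : ℝ) < ph ^ 2 + 1 := by positivity
  have a1 : |(v.1 : ℝ)| * (ph ^ 2 + 1) ≤ ph * |E true v| + |E false v| := by
    rw [← abs_of_pos hp, ← abs_mul, e1]
    refine (abs_add_le _ _).trans ?_
    rw [abs_mul, abs_of_pos ph_pos]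
  have a2 : |(v.2 : ℝ)| * (ph ^ 2 + 1) ≤ |E true v| + ph * |E false v| := by
    rw [← abs_of_pos hp, ← abs_mul, e2]
    refine (abs_sub _ _).trans ?_
    rw [abs_mul, abs_of_pos ph_pos]
  have : (|(v.1 : ℝ)| + |(v.2 : ℝ)|) * (ph ^ 2 + 1) ≤ (|E true v| + |E false v|) * (ph ^ 2 + 1) := by
    have a3 := abs_nonneg (E true v)
    have a4 := abs_nonneg (E false v)
    nlinarith
  exact le_of_mul_le_mul_right this hp

section
variable {L : ℕ}

lemma length_vw_V (δ : Bool) (cs : List (List U)) (T : ℕ)
    (hT : |E δ (V δ cs)| + 2 * Su cs ≤ T) : (vw (V δ cs)).length ≤ T := by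
  have h1 := norm_le (V δ cs)
  have h2 := E_con_V δ cs
  rw [length_vw]
  have : (((V δ cs).1.natAbs + (V δ cs).2.natAbs : ℕ) : ℝ) ≤ T := by
    cases δ
    · simp only [Bool.not_false] at h2; linarith
    · simp only [Bool.not_true] at h2; linarith
  exact_mod_cast this

/-- folding a nested word -/
lemma H_fold (hL : 4 ≤ L) (δ : Bool) (cs : List (List U)) (T : ℕ)
    (hT : |E δ (V δ cs)| + 2 * Su cs ≤ T) {n : ℕ}
    (hn : (Y δ cs).length + 6 * T + 6 ≤ n) : H L n (Y δ cs) (uw (vw (V δ cs))) := by
  induction cs generalizing n with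
  | nil => simpa [Y, V, vw_zero] using H.refl _
  | cons c cs ih =>
    have hT' : |E δ (V δ cs)| + 2 * Su cs ≤ T := by
      have h1 := E_exp_V δ c cs
      rw [Su_cons] at hT; push_cast at hT
      linarith
    have hv := length_vw_V δ cs T hT'
    have hc : 2 * c.length ≤ T := by
      have : (2 * c.length : ℝ) ≤ T := by
        have h1 := abs_nonneg (E δ (V δ (c :: cs)))
        rw [Su_cons] at hT; push_cast at hT
        have h2 : (0 : ℝ) ≤ Su cs := Nat.cast_nonneg _
        linarith
      exact_mod_cast this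
    simp only [Y, List.length_cons, List.length_append, List.length_map, List.length_nil] at hn
    have h1 : H L n ((dl δ :: uw c) ++ (Y δ cs ++ [dl (!δ)]))
        ((dl δ :: uw c) ++ (uw (vw (V δ cs)) ++ [dl (!δ)])) :=
      (ih hT' le_rfl).ctx _ _ (by simp; omega)
    have h2 : H L n (dl δ :: (uw (c ++ vw (V δ cs)) ++ [dl (!δ)]))
        (uw (vw (Da δ (val (c ++ vw (V δ cs)))))) :=
      H_conj hL δ _ (by simp only [List.length_append]; omega)
    have e1 : val (c ++ vw (V δ cs)) = val c + V δ cs := by simp [val_vw]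
    rw [e1] at h2
    have e2 : (dl δ :: uw c) ++ (uw (vw (V δ cs)) ++ [dl (!δ)]) =
      dl δ :: (uw (c ++ vw (V δ cs)) ++ [dl (!δ)]) := by simp
    rw [e2] at h1
    have e3 : Y δ (c :: cs) = (dl δ :: uw c) ++ (Y δ cs ++ [dl (!δ)]) := by simp [Y]
    rw [e3]
    exact h1.trans h2

/-! ### the exponent of `D` -/

lemma D_pow_entry (δ : Bool) (k : ℕ) :
    1 ≤ (ev (List.replicate (k + 1) (dl δ))).1 0 0 ∧
    1 ≤ sg δ * (ev (List.replicate (k + 1) (dl δ))).1 0 1 ∧
    1 ≤ sg δ * (ev (List.replicate (k + 1) (dl δ))).1 1 0 ∧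
    1 ≤ (ev (List.replicate (k + 1) (dl δ))).1 1 1 := by
  induction k with
  | zero => cases δ <;> simp [Dm, sg]
  | succ k ih =>
    obtain ⟨h1, h2, h3, h4⟩ := ih
    rw [List.replicate_succ, ev_cons]
    set g := ev (List.replicate (k + 1) (dl δ)) with hg
    cases δ with
    | true =>
      simp only [sg, one_mul] at h2 h3 ⊢
      simp only [dl_val, Dm, Matrix.SpecialLinearGroup.coe_mul, Matrix.mul_apply,
        Fin.sum_univ_three]
      simp
      refine ⟨?_, ?_, ?_, ?_⟩ <;> linarith
    | false =>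
      simp only [sg] at h2 h3 ⊢
      simp only [dl_val, Dm, Matrix.SpecialLinearGroup.coe_mul, Matrix.mul_apply,
        Fin.sum_univ_three]
      simp
      refine ⟨?_, ?_, ?_, ?_⟩ <;> linarith

lemma Dw_uu {l : ℤ} {v : ℤ × ℤ} (h : ev (Dw l) * uu' v = 1) : l = 0 ∧ v = 0 := by
  have h1 : ev (Dw l) = uu' (-v) := by
    rw [← uu'_inv]; exact eq_inv_of_mul_eq_one_left h
  have hl : l = 0 := by
    by_contra hl
    obtain ⟨k, hk⟩ : ∃ k : ℕ, l.natAbs = k + 1 := ⟨l.natAbs - 1, by omega⟩
    have key : ∀ δ, ev (List.replicate (k + 1) (dl δ)) ≠ uu' (-v) := by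
      intro δ hh
      have := (D_pow_entry δ k).2.1
      rw [hh] at this
      simp [uu', uu] at this
    unfold Dw at h1
    rw [hk] at h1
    split_ifs at h1
    · exact key true h1
    · exact key false h1
  refine ⟨hl, ?_⟩
  subst hl
  have h2 : uu' v = uu' 0 := by simpa [Dw, uu'_zero] using h
  exact uu'_inj h2

/-- trivial words in the Sol letters are trivial in linear space -/
theorem sol_fill (hL : 4 ≤ L) (w : List Lt) (hw : ∀ x ∈ w, IsSol x) (h1 : ev w = 1) :
    H L (40 * (w.length + 1)) w [] := by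
  obtain ⟨l, up, down, c, h, h0, hl, hd, hs⟩ := exists_NF hL w hw
  have hev : ev (NF l up down c) = 1 := by rw [← h.ev_eq, h1]
  rw [NF, ev_append, ev_append, ev_append, ev_Y, ev_Y, ev_uw, uu'_add, uu'_add] at hev
  obtain ⟨rfl, hz⟩ := Dw_uu hev
  set T := 2 * (Su up + Su down + c.length) with hT
  have hEz : ∀ δ, E δ (V true up) + (E δ (V false down) + E δ (val c)) = 0 := by
    intro δ
    rw [← E_add, ← E_add, hz]
    cases δ <;> simp [E]
  have hu : |E true (V true up)| + 2 * Su up ≤ T := by
    have a1 := E_con_V false down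
    have a2 := E_val true c
    have a3 : E true (V true up) = -(E true (V false down) + E true (val c)) := by
      linarith [hEz true]
    rw [a3, abs_neg]
    have := abs_add_le (E true (V false down)) (E true (val c))
    simp only [Bool.not_false] at a1
    rw [hT]; push_cast
    linarith
  have hdn : |E false (V false down)| + 2 * Su down ≤ T := by
    have a1 := E_con_V true up
    have a2 := E_val false c
    have a3 : E false (V false down) = -(E false (V true up) + E false (val c)) := by
      linarith [hEz false]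
    rw [a3, abs_neg]
    have := abs_add_le (E false (V true up)) (E false (val c))
    simp only [Bool.not_true] at a1
    rw [hT]; push_cast
    linarith
  have l1 := length_vw_V true up T hu
  have l2 := length_vw_V false down T hdn
  have f1 : H L (40 * (w.length + 1)) (Y true up ++ (Y false down ++ uw c))
      (uw (vw (V true up)) ++ (Y false down ++ uw c)) :=
    (H_fold hL true up T hu le_rfl).right _ (by simp [length_Y]; omega)
  have f2 : H L (40 * (w.length + 1)) (uw (vw (V true up)) ++ (Y false down ++ uw c))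
      (uw (vw (V true up)) ++ (uw (vw (V false down)) ++ uw c)) :=
    (H_fold hL false down T hdn le_rfl).ctx _ _ (by simp [length_Y]; omega)
  have f3 : H L (40 * (w.length + 1)) (uw (vw (V true up) ++ (vw (V false down) ++ c)))
      (uw (vw (val (vw (V true up) ++ (vw (V false down) ++ c))))) :=
    H_sort hL _ (by simp only [List.length_append]; omega)
  have e3 : val (vw (V true up) ++ (vw (V false down) ++ c)) = 0 := by
    simp [val_vw, hz]
  rw [e3, vw_zero] at f3
  have h' : H L (40 * (w.length + 1)) w (NF 0 up down c) := h.mono (by omega)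
  refine h'.trans ?_
  have e4 : NF 0 up down c = Y true up ++ (Y false down ++ uw c) := by simp [NF, Dw]
  rw [e4]
  refine f1.trans (f2.trans ?_)
  simpa using f3

end

end Pool.Agent.H20.SLF
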